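import Pool.Agent.U213.EM.Main

/-!
# The étale cohomology of the cycle complexes in all negative weights: definitions
-/

set_option autoImplicit false

open CategoryTheory AlgebraicGeometry Pool.Agent.Y116.UV Pool.Agent.U213.EM

namespace Pool.Agent.U738.EC

universe w

/-- The properties of the groups `A n i X = H^i(X_et, ℤ^c(n))`, for all `n < 0` and the separated schemes
`X` of finite type over `R` (`R = ℤ` or `R = 𝔽_p`), which are used. -/
structure IsCycles (R : Type) [CommRing R] (A : ℤ → ℤ → Sch R → ModuleCat.{w} ℤ) : Prop where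
  /-- the properties in a fixed weight (library, `IsCycle`) -/
  cyc : ∀ n : ℤ, n < 0 → IsCycle R n (A n)
  /-- the exact sequence `H^(i + 2)(X, ℤ^c(n - 1)) = H^i(X × 𝔸¹, ℤ^c(n)) → H^i(X × 𝔾_m, ℤ^c(n)) →
  H^(i + 1)(X, ℤ^c(n))` (homotopy invariance and localization), for `X = Spec B` -/
  torus : ∀ n : ℤ, n < 0 → ∀ (B : Type) [CommRing B] [Algebra R B] [Algebra.FiniteType R B] (i : ℤ),
    ∃ (f : A (n - 1) (i + 2) (aff R B) ⟶ A n i (aff R (LaurentPolynomial B)))
      (g : A n i (aff R (LaurentPolynomial B)) ⟶ A n (i + 1) (aff R B)),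
      ∀ x, g.hom x = 0 ↔ ∃ y, f.hom y = x
  /-- finite generation for the affine schemes of dimension at most one -/
  curve : ∀ n : ℤ, n < 0 → ∀ (B : Type) [CommRing B] [Algebra R B] [Algebra.FiniteType R B],
    ringKrullDim B ≤ 1 → FG (A n) (aff R B)

/-- All groups `H^i(X_et, ℤ^c(n))`, `n < 0`, are finitely generated. -/
def AllFG {R : Type} [CommRing R] (A : ℤ → ℤ → Sch R → ModuleCat.{w} ℤ) (X : Sch R) : Prop :=
  ∀ n : ℤ, n < 0 → FG (A n) X

end Pool.Agent.U738.EC
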