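import Pool.Agent.U738.EC.Defs
import Pool.Agent.U738.CX.Fam

/-!
# The étale cohomology of the cycle complexes in all negative weights: two terms and complexity
-/

set_option autoImplicit false

open CategoryTheory AlgebraicGeometry Pool.Agent.Y116.UV Pool.Agent.U213.EM Pool.Agent.U213.BP
  Pool.Agent.U738.BN Pool.Agent.U738.CX

namespace Pool.Agent.U738.EC

universe w

variable {R : Type} [CommRing R] {A : ℤ → ℤ → Sch R → ModuleCat.{w} ℤ}

lemma fg_of_exact' {M N P : Type*} [AddCommGroup M] [AddCommGroup N] [AddCommGroup P]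
    (f : M →+ N) (g : N →+ P) (h : ∀ x, g x = 0 ↔ ∃ y, f y = x) (hM : AddGroup.FG M)
    (hP : AddGroup.FG P) : AddGroup.FG N := by
  rw [← Module.Finite.iff_addGroup_fg] at hM hP ⊢
  have e : LinearMap.ker g.toIntLinearMap = LinearMap.range f.toIntLinearMap := by
    ext x
    exact h x
  have h1 : Module.Finite ℤ (LinearMap.ker g.toIntLinearMap) := by
    rw [e]
    infer_instance
  have h2 : Module.Finite ℤ (N ⧸ LinearMap.ker g.toIntLinearMap) :=
    Module.Finite.equiv g.toIntLinearMap.quotKerEquivRange.symm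
  exact Module.Finite.of_submodule_quotient (LinearMap.ker g.toIntLinearMap)

lemma finite_iff_fg {M : ModuleCat.{w} ℤ} : Module.Finite ℤ M ↔ AddGroup.FG M := by
  rw [← Module.Finite.iff_addGroup_fg]
  constructor
  · intro h
    convert h
    exact Subsingleton.elim _ _
  · intro h
    convert h
    exact Subsingleton.elim _ _

lemma finite_of_exact' {M N P : ModuleCat.{w} ℤ} (f : M ⟶ N) (g : N ⟶ P)
    (h : ∀ x, g.hom x = 0 ↔ ∃ y, f.hom y = x) (hM : Module.Finite ℤ M) (hP : Module.Finite ℤ P) :
    Module.Finite ℤ N := by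
  rw [finite_iff_fg] at hM hP ⊢
  exact fg_of_exact' f.hom.toAddMonoidHom g.hom.toAddMonoidHom h hM hP

/-- the closure properties -/
theorem posD_all (h : IsCycles R A) {N : WithBot ℕ∞}
    (hN : ForDimension N (AllFG A)) : PosD True (AllFG A) N where
  iso hX e hP n hn := (dev (h.cyc n hn)).iso hX e (hP n hn)
  total i j hX ht hZ hU n hn := (dev (h.cyc n hn)).total i j hX ht (hZ n hn) (hU n hn)
  times B _ _ _ hB n hn i := by
    obtain ⟨f, g, hfg⟩ := h.torus n hn B i
    exact finite_of_exact' f g hfg (hB (n - 1) (by omega) (i + 2)) (hB n hn (i + 1))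
  dim := hN

lemma forDim_one (h : IsCycles R A) : ForDimension 1 (AllFG A) :=
  fun B _ _ _ hB n hn => h.curve n hn B hB

/-- proper regular schemes and affine schemes of dimension at most `N` -/
theorem proper_iff [IsNoetherianRing R] (h : IsCycles R A) (N : ℕ) :
    (∀ n : ℤ, n < 0 → ProperRegularDim n (A n) N) ↔ ForDimension N (AllFG A) := by
  constructor
  · intro h1 B _ _ _ hB n hn
    refine (dim_iff (h.cyc n hn) N).mp (h1 n hn) _ (ft_aff True) ?_
    change topologicalKrullDim (PrimeSpectrum B) ≤ N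
    rw [PrimeSpectrum.topologicalKrullDim_eq_ringKrullDim]
    exact hB
  · intro h1 n hn
    refine (dim_iff (h.cyc n hn) N).mpr ?_
    exact fun X hX hXd => of_affine_dim (dev (h.cyc n hn)) (fun B _ _ _ hB => h1 B hB n hn) X hX hXd

theorem dim_iff_complexity [IsNoetherianRing R] (h : IsCycles R A) (N : WithBot ℕ∞) :
    ForDimension N (AllFG A) ↔ ForComplexity N (AllFG A) :=
  complexity_iff (sep := True) (fun hX e hP n hn => (dev (h.cyc n hn)).iso hX e (hP n hn))
    (fun i j hX ht hZ hU n hn => (dev (h.cyc n hn)).total i j hX ht (hZ n hn) (hU n hn))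
    (posD_all h (N := ⊥) (fun B _ _ _ hB n hn => h.curve n hn B
      (hB.trans bot_le))).times

theorem dim_iff_terms [IsNoetherianRing R] (h : IsCycles R A) (N : WithBot ℕ∞) :
    ForDimension N (AllFG A) ↔ ForTerms N 2 (AllFG A) := by
  constructor
  · exact fun h1 => two_terms (posD_all h h1)
  · intro h1 B _ _ _ hB
    have h2 := h1 B hB 0 ∅ (by simp)
    have e : (MvPolynomial (Fin 0) B ⧸ Ideal.span (∅ : Set (MvPolynomial (Fin 0) B))) ≃ₐ[R] B :=
      ((AlgEquiv.quotientBot R (MvPolynomial (Fin 0) B)).symm.trans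
        (Ideal.quotientEquivAlgOfEq R (Ideal.span_empty).symm)).symm.trans
        ((MvPolynomial.isEmptyAlgEquiv B (Fin 0)).restrictScalars R)
    exact (posD_all h (N := ⊥) (fun B _ _ _ hB n hn => h.curve n hn B
      (hB.trans bot_le))).iso (ft_aff True) ⟨affIso e.symm⟩ h2

end Pool.Agent.U738.EC
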